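import Pool.Agent.X254.Polyplex

/-!
# An extremal nine-dimensional (0,1)-matrix of order two with more than one optimal hyperplane cover
-/

set_option autoImplicit false

namespace Pool.Agent.Results.MP_fa4fe0_co.TwoOptimalCovers

open Pool.Agent.X254.Polyplex

/-- the weights of the `9`-dimensional example -/
def w : Fin 9 → ℕ := ![22, 18, 12, 12, 8, 8, 8, 3, 3]

/-- the weights of another optimal cover -/
def v : Fin 9 → ℕ := ![11, 9, 6, 6, 4, 4, 4, 2, 1]

/-- the support of an optimal polyplex -/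
def b : Fin 8 → Fin 9 → Fin 2 := ![![0, 1, 0, 0, 1, 1, 1, 1, 1], ![0, 1, 1, 1, 0, 0, 0, 1, 1],
  ![1, 0, 1, 0, 1, 0, 0, 1, 1], ![1, 0, 0, 1, 1, 0, 0, 1, 1], ![0, 0, 1, 1, 1, 1, 1, 0, 0],
  ![1, 1, 0, 0, 0, 1, 0, 0, 0], ![1, 1, 0, 0, 0, 0, 1, 0, 0], ![1, 0, 1, 0, 0, 1, 0, 1, 1]]

/-- its entries, multiplied by `24` -/
def c : Fin 8 → ℕ := ![5, 7, 2, 6, 11, 4, 8, 4]

/-- the weights of the `10`-dimensional example -/
def w' : Fin 10 → ℕ := ![36, 32, 21, 17, 17, 13, 11, 3, 3, 3]

/-- the support of an optimal polyplex -/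
def b' : Fin 10 → Fin 10 → Fin 2 := ![![1, 0, 1, 0, 0, 1, 0, 1, 1, 1], ![1, 0, 0, 1, 1, 0, 0, 1, 1, 1],
  ![0, 1, 1, 1, 0, 0, 0, 1, 1, 1], ![0, 0, 1, 1, 1, 1, 1, 0, 0, 0], ![0, 1, 1, 0, 1, 0, 0, 1, 1, 1],
  ![0, 1, 0, 1, 1, 1, 0, 0, 0, 0], ![1, 1, 0, 0, 0, 0, 1, 0, 0, 0], ![0, 1, 0, 1, 0, 1, 1, 1, 1, 0],
  ![0, 1, 0, 1, 0, 1, 1, 0, 1, 1], ![0, 1, 0, 1, 0, 1, 1, 1, 0, 1]]

/-- its entries, multiplied by `79` -/
def c' : Fin 10 → ℕ := ![25, 21, 4, 31, 19, 8, 33, 5, 5, 5]


/-- **Theorem.** (1) There is an extremal `9`-dimensional (0,1)-matrix of order `2` with the deficiency `1/24`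
and two different optimal hyperplane covers, one of which has the entry `1/16`, which is not an integer
multiple of the deficiency. (2) There is an extremal `10`-dimensional (0,1)-matrix of order `2` with the
deficiency `2/79` and an optimal hyperplane cover with the entry `3/79`, which is not an integer multiple of
the deficiency. -/
theorem result :
    (∃ (A : (Fin 9 → Fin 2) → Prop) (L L' : Fin 9 → Fin 2 → ℝ), Extremal A ∧ IsDeficiency A (1 / 24) ∧
      IsOptimalCover A L ∧ IsOptimalCover A L' ∧ L ≠ L' ∧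
      ∃ i j, ∀ z : ℤ, L i j ≠ z * (1 / 24)) ∧
    ∃ (A : (Fin 10 → Fin 2) → Prop) (L : Fin 10 → Fin 2 → ℝ), Extremal A ∧ IsDeficiency A (2 / 79) ∧
      IsOptimalCover A L ∧ ∃ i j, ∀ z : ℤ, L i j ≠ z * (2 / 79) := by
  constructor
  · have hW : ∑ i, w i + 2 = 2 * 48 := by decide +kernel
    have hno : ∀ α : Fin 9 → Fin 2, wt w α + 1 ≠ 48 := by decide +kernel
    have hb : ∀ t, 48 ≤ wt w (b t) := by decide +kernel
    have hc : ∀ i j, (∑ t, if b t i = j then c t else 0) ≤ 24 := by decide +kernel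
    refine ⟨Amat w 48, Lc w 48, Lc v 24, extremal (by norm_num) hW hno, ?_, ?_, ?_, ?_, ?_⟩
    · have h := deficiency (q := 48) (w := w) b c (D := 24) (by norm_num) hb hc (by norm_num) hW
        (by decide +kernel)
      have h2 : (2 : ℝ) / ((48 : ℕ) : ℝ) = 1 / 24 := by norm_num
      rwa [h2] at h
    · exact optimal b c (D := 24) (by norm_num) hb hc (by norm_num) (fun _ h => h) (by decide +kernel)
    · exact optimal b c (D := 24) (by norm_num) hb hc (by norm_num)
        (by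
          have : ∀ α : Fin 9 → Fin 2, 48 ≤ wt w α → 24 ≤ wt v α := by decide +kernel
          exact this) (by decide +kernel)
    · intro h
      have h1 := congrFun (congrFun h 7) 1
      have h2 : Lc w 48 7 1 = 3 / 48 := by
        simp [Lc, w]
      have h3 : Lc v 24 7 1 = 2 / 24 := by
        simp [Lc, v]
      rw [h2, h3] at h1
      norm_num at h1
    · refine ⟨7, 1, fun z h => ?_⟩
      have h2 : Lc w 48 7 1 = 3 / 48 := by
        simp [Lc, w]
      rw [h2] at h
      have h3 : (3 : ℝ) = 2 * z := by linarith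
      have h4 : (3 : ℤ) = 2 * z := by exact_mod_cast h3
      omega
  · have hW : ∑ i, w' i + 2 = 2 * 79 := by decide +kernel
    have hno : ∀ α : Fin 10 → Fin 2, wt w' α + 1 ≠ 79 := by decide +kernel
    have hb : ∀ t, 79 ≤ wt w' (b' t) := by decide +kernel
    have hc : ∀ i j, (∑ t, if b' t i = j then c' t else 0) ≤ 79 := by decide +kernel
    refine ⟨Amat w' 79, Lc w' 79, extremal (by norm_num) hW hno, ?_, ?_, ?_⟩
    · have h := deficiency (q := 79) (w := w') b' c' (D := 79) (by norm_num) hb hc (by norm_num) hW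
        (by decide +kernel)
      simpa using h
    · exact optimal b' c' (D := 79) (by norm_num) hb hc (by norm_num) (fun _ h => h)
        (by decide +kernel)
    · refine ⟨7, 1, fun z h => ?_⟩
      have h2 : Lc w' 79 7 1 = 3 / 79 := by
        simp [Lc, w']
      rw [h2] at h
      have h3 : (3 : ℝ) = 2 * z := by linarith
      have h4 : (3 : ℤ) = 2 * z := by exact_mod_cast h3
      omega

end Pool.Agent.Results.MP_fa4fe0_co.TwoOptimalCovers
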